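import Pool.Agent.helper36.DL2.Families

/-!
# The two measures on the patterns
-/

namespace Pool.Agent.helper36.DL3

open Finset Pool.Agent.helper36.DL2

/-- the measure of the patterns which contain `S` -/
noncomputable def mass (m L : ℕ) (μ : Finset (ℕ × ℕ) → ℝ) (S : Finset (ℕ × ℕ)) : ℝ :=
  ∑ Y ∈ (levels m L).powerset, μ Y * (if S ⊆ Y then 1 else 0)

/-- the normalised counting measure of a multiset -/
noncomputable def wt (M : Multiset (Finset (ℕ × ℕ))) (Y : Finset (ℕ × ℕ)) : ℝ :=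
  (M.count Y : ℝ) / M.card

theorem wt_nonneg (M : Multiset (Finset (ℕ × ℕ))) (Y : Finset (ℕ × ℕ)) : 0 ≤ wt M Y := by
  unfold wt; positivity

theorem mem_of_wt_ne {M : Multiset (Finset (ℕ × ℕ))} {Y : Finset (ℕ × ℕ)} (h : wt M Y ≠ 0) :
    Y ∈ M := by
  by_contra hY
  apply h
  rw [wt, Multiset.count_eq_zero_of_notMem hY]
  simp

theorem mass_wt {m L : ℕ} {M : Multiset (Finset (ℕ × ℕ))} (hM : ∀ Y ∈ M, Y ⊆ levels m L)
    (S : Finset (ℕ × ℕ)) :
    mass m L (wt M) S = (M.countP (fun Y => S ⊆ Y) : ℝ) / M.card := by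
  have h1 : ∑ Y ∈ (levels m L).powerset, (M.filter (fun Y => S ⊆ Y)).count Y
      = (M.filter (fun Y => S ⊆ Y)).card := by
    refine Multiset.sum_count_eq_card fun Y hY => ?_
    rw [Finset.mem_powerset]
    exact hM Y (Multiset.mem_of_mem_filter hY)
  rw [← Multiset.countP_eq_card_filter] at h1
  rw [← h1, mass]
  push_cast
  rw [Finset.sum_div]
  refine Finset.sum_congr rfl fun Y _ => ?_
  rw [wt, Multiset.count_filter]
  split_ifs <;> simp

theorem measures {d m : ℕ} (hd : 1 ≤ d) (hm : 1 ≤ m) :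
    ∃ (a b μ : Finset (ℕ × ℕ) → ℝ) (ε : ℝ) (e : Bool),
      (∀ Y, 0 ≤ a Y) ∧ (∀ Y, 0 ≤ b Y) ∧ (∀ Y, 0 ≤ μ Y) ∧ 0 ≤ ε ∧ ε * 2 ^ m ≤ 1 ∧
      mass m (8 * d ^ 2) a ∅ = 1 ∧ mass m (8 * d ^ 2) b ∅ = 1 ∧ mass m (8 * d ^ 2) μ ∅ = 1 ∧
      (∀ S : Finset (ℕ × ℕ), S.card ≤ d → (1 - ε) * mass m (8 * d ^ 2) a S
        + ε * mass m (8 * d ^ 2) b S = mass m (8 * d ^ 2) μ S) ∧
      (∀ Y, a Y ≠ 0 → lab Y (8 * d ^ 2) m = e) ∧ (∀ Y, μ Y ≠ 0 → lab Y (8 * d ^ 2) m = !e) := by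
  obtain ⟨P, Q, R, hP, hQ, hR, hM, hRc, hQ1, _⟩ := families (d := d) (L := 8 * d ^ 2) (D := DD d)
    (KP d) (KN d) (fun T hT => mem_KP_KN hT) (fun S hS => run_moment hd S hS) m
  have hKN := card_KN hd
  have hD1 : 1 ≤ DD d := Nat.one_le_pow _ _ (Nat.factorial_pos _)
  have hcPR : P.card + R.card = Q.card := by
    have := hM ∅ (by simp)
    rwa [countP_empty, countP_empty, countP_empty] at this
  have hQ0 : 1 ≤ Q.card := (Nat.one_le_pow _ _ hD1).trans hQ1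
  have hwE : R.card * 2 ^ m ≤ Q.card := by
    rw [hRc, ← mul_pow]
    refine le_trans (Nat.pow_le_pow_left ?_ _) hQ1
    rw [mul_comm]
    exact hKN
  have h2m : 2 ≤ 2 ^ m := by
    calc 2 = 2 ^ 1 := (pow_one 2).symm
      _ ≤ 2 ^ m := Nat.pow_le_pow_right (by norm_num) hm
  have h2R : R.card * 2 ≤ Q.card := (Nat.mul_le_mul_left _ h2m).trans hwE
  have hP0 : 1 ≤ P.card := by omega
  have hPr : (P.card : ℝ) ≠ 0 := by exact_mod_cast (by omega : P.card ≠ 0)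
  have hQr : (Q.card : ℝ) ≠ 0 := by exact_mod_cast (by omega : Q.card ≠ 0)
  have hsum : (P.card : ℝ) + R.card = Q.card := by exact_mod_cast hcPR
  have hmassP : mass m (8 * d ^ 2) (wt P) ∅ = 1 := by
    rw [mass_wt (fun Y hY => (hP Y hY).1), countP_empty, div_self hPr]
  have hmassQ : mass m (8 * d ^ 2) (wt Q) ∅ = 1 := by
    rw [mass_wt (fun Y hY => (hQ Y hY).1), countP_empty, div_self hQr]
  have hM' : ∀ S : Finset (ℕ × ℕ), S.card ≤ d → (P.countP (fun Y => S ⊆ Y) : ℝ)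
      + R.countP (fun Y => S ⊆ Y) = Q.countP (fun Y => S ⊆ Y) := fun S hS => by
    exact_mod_cast hM S hS
  rcases Nat.eq_zero_or_pos R.card with hR0 | hR0
  · refine ⟨wt P, wt P, wt Q, 0, decide (Even m), wt_nonneg P, wt_nonneg P, wt_nonneg Q, le_rfl,
      by simp, hmassP, hmassP, hmassQ, fun S hS => ?_, fun Y hY => (hP Y (mem_of_wt_ne hY)).2,
      fun Y hY => (hQ Y (mem_of_wt_ne hY)).2⟩
    have h1 := hM' S hS
    have h2 : R.countP (fun Y => S ⊆ Y) = 0 := by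
      have := Multiset.countP_le_card (fun Y => S ⊆ Y) R
      omega
    have h3 : (P.card : ℝ) = Q.card := by rw [← hsum, hR0]; simp
    rw [mass_wt (fun Y hY => (hP Y hY).1), mass_wt (fun Y hY => (hQ Y hY).1), ← h1, h2, h3]
    simp
  · have hRr : (R.card : ℝ) ≠ 0 := by exact_mod_cast (by omega : R.card ≠ 0)
    refine ⟨wt P, wt R, wt Q, (R.card : ℝ) / Q.card, decide (Even m), wt_nonneg P, wt_nonneg R,
      wt_nonneg Q, by positivity, ?_, hmassP, ?_, hmassQ, fun S hS => ?_,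
      fun Y hY => (hP Y (mem_of_wt_ne hY)).2, fun Y hY => (hQ Y (mem_of_wt_ne hY)).2⟩
    · rw [div_mul_eq_mul_div, div_le_one (by positivity)]
      exact_mod_cast hwE
    · rw [mass_wt hR, countP_empty, div_self hRr]
    · rw [mass_wt (fun Y hY => (hP Y hY).1), mass_wt (fun Y hY => (hQ Y hY).1), mass_wt hR,
        ← hM' S hS]
      have h4 : 1 - (R.card : ℝ) / Q.card = P.card / Q.card := by
        rw [← hsum]
        field_simp
        ring
      rw [h4]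
      field_simp

end Pool.Agent.helper36.DL3
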