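import Pool.Agent.helper36.DL3.Force

/-!
# The adversary
-/

namespace Pool.Agent.helper36.DL3

open Finset Pool.Agent.helper36.DL Pool.Agent.helper36.DL2

/-- the rank of `j` in `B` -/
def rk (B : Finset ℕ) (j : ℕ) : ℕ := (B.filter (fun x => x < j)).card

theorem rk_lt {B : Finset ℕ} {j : ℕ} (h : j ∈ B) : rk B j < B.card := by
  refine Finset.card_lt_card (Finset.ssubset_iff_subset_ne.2
    ⟨Finset.filter_subset _ _, fun he => ?_⟩)
  have := (Finset.mem_filter.1 (he ▸ h)).2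
  exact lt_irrefl _ this

theorem rk_mono {B : Finset ℕ} {i j : ℕ} (hi : i ∈ B) (h : i < j) : rk B i < rk B j := by
  refine Finset.card_lt_card (Finset.ssubset_iff_subset_ne.2 ⟨fun x hx => ?_, fun he => ?_⟩)
  · rw [Finset.mem_filter] at hx ⊢
    exact ⟨hx.1, hx.2.trans h⟩
  · have h1 : i ∈ B.filter (fun x => x < j) := Finset.mem_filter.2 ⟨hi, h⟩
    rw [← he] at h1
    exact lt_irrefl _ (Finset.mem_filter.1 h1).2

theorem rk_inj {B : Finset ℕ} {i j : ℕ} (hi : i ∈ B) (hj : j ∈ B) (h : rk B i = rk B j) :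
    i = j := by
  rcases lt_trichotomy i j with h1 | h1 | h1
  · exact absurd h (rk_mono hi h1).ne
  · exact h1
  · exact absurd h.symm (rk_mono hj h1).ne

/-- a partition of `C` into `E` groups with at most `s` members -/
theorem exists_grp {E s : ℕ} (hE : 0 < E) (C : Finset ℕ) (hC : C.card ≤ s * E) :
    ∃ grp : ℕ → Fin E, ∀ i, (C.filter fun c => grp c = i).card ≤ s := by
  refine ⟨fun c => ⟨rk C c % E, Nat.mod_lt _ hE⟩, fun i => ?_⟩
  rw [← Finset.card_range s]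
  refine Finset.card_le_card_of_injOn (fun c => rk C c / E) (fun c hc => ?_) ?_
  · rw [Finset.mem_coe, Finset.mem_filter] at hc
    rw [Finset.mem_coe, Finset.mem_range, Nat.div_lt_iff_lt_mul hE]
    exact (rk_lt hc.1).trans_le hC
  · intro c hc c' hc' h
    rw [Finset.mem_coe, Finset.mem_filter] at hc hc'
    refine rk_inj hc.1 hc'.1 ?_
    have h1 : rk C c % E = rk C c' % E := by
      have h2 := hc.2.trans hc'.2.symm
      exact congrArg Fin.val h2
    have h3 : rk C c / E = rk C c' / E := h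
    rw [← Nat.div_add_mod (rk C c) E, ← Nat.div_add_mod (rk C c') E, h1, h3]

variable {n : ℕ}

/-- the data of the adversary -/
structure Data (n d m L N : ℕ) where
  vr : (ℕ × ℕ) × ℕ → Fin n
  hvr : Set.InjOn vr (levels m L ×ˢ range N : Finset ((ℕ × ℕ) × ℕ))
  a : Finset (ℕ × ℕ) → ℝ
  b : Finset (ℕ × ℕ) → ℝ
  μ : Finset (ℕ × ℕ) → ℝ
  ε : ℝ
  e : Bool
  ha0 : ∀ Y, 0 ≤ a Y
  hb0 : ∀ Y, 0 ≤ b Y
  hμ0 : ∀ Y, 0 ≤ μ Y
  hε0 : 0 ≤ ε
  hε1 : ε * 2 ^ m ≤ 1
  ha1 : mass m L a ∅ = 1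
  hb1 : mass m L b ∅ = 1
  hμ1 : mass m L μ ∅ = 1
  hmom : ∀ S : Finset (ℕ × ℕ), S.card ≤ d →
      (1 - ε) * mass m L a S + ε * mass m L b S = mass m L μ S
  haL : ∀ Y, a Y ≠ 0 → lab Y L m = e
  hμL : ∀ Y, μ Y ≠ 0 → lab Y L m = !e

/-- `J` mistakes can be forced from every set of at least `c` candidates -/
def Forces {d m L N : ℕ} (D : Data n d m L N) (A : Learner n) (J c : ℕ) : Prop :=
  ∀ (C : Finset ℕ) (h : List (Cube n × Bool)), C ⊆ range N → c ≤ C.card →
    ∃ a ∈ C, ∃ xs, J ≤ mistakes A (tgt (fun k => D.vr (k, a)) L m) h xs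

theorem forces_zero {d m L N : ℕ} (D : Data n d m L N) (A : Learner n) : Forces D A 0 1 := by
  intro C h _ hc
  obtain ⟨a, ha⟩ := Finset.card_pos.1 (by omega : 0 < C.card)
  exact ⟨a, ha, [], Nat.zero_le _⟩

theorem forces_succ {d m L N : ℕ} (D : Data n d m L N) (A : Learner n)
    (hA : ∀ h, IsPTF d (A h)) {J c s : ℕ} (hc : Forces D A J c) (hs : c + d * s ≤ s * 2 ^ m) :
    Forces D A (J + 1) (c + d * s) := by
  intro C h hC hcard
  obtain ⟨C', hC'C, hC'⟩ := Finset.exists_subset_card_eq hcard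
  obtain ⟨grp, hgrp⟩ := exists_grp (E := 2 ^ m) (s := s) (by positivity) C' (by rw [hC']; exact hs)
  obtain ⟨x, b', hxb, hsmall⟩ := step D.hvr D.ha0 D.hb0 D.hμ0 D.hε0 D.ha1 D.hb1 D.hμ1 D.hmom
    D.haL D.hμL (v := 2 ^ m) (by have := D.hε1; push_cast; exact this) (A h) (hA h) C'
    (hC'C.trans hC) grp s hgrp
  set C'' := C'.filter fun a => tgt (fun k => D.vr (k, a)) L m x = b' with hC''
  have h3 : C''.card + (C'.filter fun a => tgt (fun k => D.vr (k, a)) L m x ≠ b').card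
      = C'.card := Finset.card_filter_add_card_filter_not _
  obtain ⟨a, ha, xs, hxs⟩ := hc C'' (h ++ [(x, b')])
    ((Finset.filter_subset _ _).trans (hC'C.trans hC)) (by omega)
  rw [hC'', Finset.mem_filter] at ha
  refine ⟨a, hC'C ha.1, x :: xs, ?_⟩
  rw [mistakes, ha.2, if_neg hxb]
  omega

theorem Forces.mono {d m L N : ℕ} {D : Data n d m L N} {A : Learner n} {J c c' : ℕ}
    (h : Forces D A J c) (hc : c ≤ c') : Forces D A J c' :=
  fun C hh hC hcard => h C hh hC (hc.trans hcard)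

theorem forces_base {d m L N : ℕ} (D : Data n d m L N) (A : Learner n)
    (hA : ∀ h, IsPTF d (A h)) (J : ℕ) : 1 + d * J ≤ 2 ^ m → Forces D A J (1 + d * J) := by
  induction J with
  | zero => intro _; exact forces_zero D A
  | succ J ih =>
    intro h
    have h1 := forces_succ D A hA (s := 1) (ih (by rw [Nat.mul_succ] at h; omega))
      (by rw [Nat.mul_succ] at h; omega)
    have h2 : 1 + d * J + d * 1 = 1 + d * (J + 1) := by ring
    rw [h2] at h1
    exact h1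

theorem forces_big {d m L N : ℕ} (D : Data n d m L N) (A : Learner n)
    (hA : ∀ h, IsPTF d (A h)) (a : ℕ) :
    Forces D A ((2 ^ m - 1) / d + a * (2 ^ m / (2 * d))) (2 ^ m * 2 ^ a) := by
  induction a with
  | zero =>
    have h1 : d * ((2 ^ m - 1) / d) ≤ 2 ^ m - 1 := Nat.mul_div_le _ _
    have h2 : 1 ≤ 2 ^ m := Nat.one_le_two_pow
    have h3 := (forces_base D A hA ((2 ^ m - 1) / d) (by omega)).mono
      (c' := 2 ^ m * 2 ^ 0) (by rw [pow_zero, mul_one]; omega)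
    rw [zero_mul, add_zero]
    exact h3
  | succ a ih =>
    have key : ∀ j ≤ 2 ^ m / (2 * d), Forces D A ((2 ^ m - 1) / d + a * (2 ^ m / (2 * d)) + j)
        (2 ^ m * 2 ^ a + j * (d * 2 ^ (a + 1))) := by
      intro j
      induction j with
      | zero => intro _; simpa using ih
      | succ j ihj =>
        intro hj
        have h1 := forces_succ D A hA (s := 2 ^ (a + 1)) (ihj (by omega)) (by
          have h2 : (j + 1) * (2 * d) ≤ 2 ^ m :=
            (Nat.mul_le_mul_right _ hj).trans (Nat.div_mul_le_self _ _)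
          calc 2 ^ m * 2 ^ a + j * (d * 2 ^ (a + 1)) + d * 2 ^ (a + 1)
              = 2 ^ m * 2 ^ a + ((j + 1) * (2 * d)) * 2 ^ a := by rw [pow_succ]; ring
            _ ≤ 2 ^ m * 2 ^ a + 2 ^ m * 2 ^ a :=
              Nat.add_le_add_left (Nat.mul_le_mul_right _ h2) _
            _ = 2 ^ (a + 1) * 2 ^ m := by rw [pow_succ]; ring)
        have h3 : 2 ^ m * 2 ^ a + j * (d * 2 ^ (a + 1)) + d * 2 ^ (a + 1)
            = 2 ^ m * 2 ^ a + (j + 1) * (d * 2 ^ (a + 1)) := by ring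
        rw [h3] at h1
        exact h1
    have h4 := (key (2 ^ m / (2 * d)) le_rfl).mono (c' := 2 ^ m * 2 ^ (a + 1)) (by
      have h2 : 2 ^ m / (2 * d) * (2 * d) ≤ 2 ^ m := Nat.div_mul_le_self _ _
      calc 2 ^ m * 2 ^ a + 2 ^ m / (2 * d) * (d * 2 ^ (a + 1))
          = 2 ^ m * 2 ^ a + (2 ^ m / (2 * d) * (2 * d)) * 2 ^ a := by rw [pow_succ]; ring
        _ ≤ 2 ^ m * 2 ^ a + 2 ^ m * 2 ^ a := Nat.add_le_add_left (Nat.mul_le_mul_right _ h2) _
        _ = 2 ^ m * 2 ^ (a + 1) := by rw [pow_succ]; ring)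
    have h5 : (2 ^ m - 1) / d + a * (2 ^ m / (2 * d)) + 2 ^ m / (2 * d)
        = (2 ^ m - 1) / d + (a + 1) * (2 ^ m / (2 * d)) := by ring
    rw [h5] at h4
    exact h4

/-- an injective map on a finite set -/
theorem exists_injOn {β : Type*} (U : Finset β) (hn : 1 ≤ n) (hU : U.card ≤ n) :
    ∃ f : β → Fin n, Set.InjOn f U := by
  classical
  refine ⟨fun b => if hb : b ∈ U then Fin.castLE hU (U.equivFin ⟨b, hb⟩) else ⟨0, hn⟩, ?_⟩
  intro a ha b hb hab
  have ha' : a ∈ U := ha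
  have hb' : b ∈ U := hb
  simp only [dif_pos ha', dif_pos hb'] at hab
  have h1 := (Fin.castLE_injective hU) hab
  have h2 := U.equivFin.injective h1
  exact congrArg Subtype.val h2

/-- **learners with polynomial threshold hypotheses** -/
theorem ptf_learner (d m a n : ℕ) (hd : 1 ≤ d) (hm : 1 ≤ m)
    (hn : 8 * d ^ 2 * m * 2 ^ (m + a) ≤ n) (A : Learner n) (hA : ∀ h, IsPTF d (A h)) :
    ∃ c : Cube n → Bool, IsDecisionList c ∧ (relevant c).ncard ≤ 8 * d ^ 2 * m ∧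
      ∃ xs, (2 ^ m - 1) / d + a * (2 ^ m / (2 * d)) ≤ mistakes A c [] xs := by
  obtain ⟨ga, gb, μ, ε, e, h1, h2, h3, h4, h5, h6, h7, h8, h9, h10, h11⟩ := measures hd hm
  have hd2 : 1 ≤ d ^ 2 := Nat.one_le_pow _ _ hd
  obtain ⟨vr, hvr⟩ := exists_injOn (n := n) (levels m (8 * d ^ 2) ×ˢ range (2 ^ (m + a)))
    (le_trans (by
      have h1 : 1 ≤ 8 * d ^ 2 * m := Nat.mul_pos (by omega) hm
      exact Nat.mul_pos h1 (by positivity)) hn)
    (by
      rw [Finset.card_product, levels, Finset.card_product, Finset.card_range, Finset.card_range,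
        Finset.card_range, mul_comm m]
      exact hn)
  let D : Data n d m (8 * d ^ 2) (2 ^ (m + a)) :=
    ⟨vr, hvr, ga, gb, μ, ε, e, h1, h2, h3, h4, h5, h6, h7, h8, h9, h10, h11⟩
  obtain ⟨b, _, xs, hxs⟩ := forces_big D A hA a (range (2 ^ (m + a))) [] subset_rfl
    (by rw [Finset.card_range, pow_add])
  refine ⟨_, tgt_isDL _ _ _, ?_, xs, hxs⟩
  rw [mul_comm (8 * d ^ 2) m]
  exact tgt_relevant _ _ _

end Pool.Agent.helper36.DL3
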