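import Pool.Agent.helper36.DL3.Adv

/-!
# No attribute-efficient mistake bound with threshold hypotheses of small degree
-/

namespace Pool.Agent.helper36.DL3

open Pool.Agent.helper36.DL

theorem IsPTF.mono {n d d' : ℕ} {h : Cube n → Bool} (hd : d ≤ d') (hh : IsPTF d h) :
    IsPTF d' h := by
  obtain ⟨p, hp, h2⟩ := hh
  exact ⟨p, hp.trans hd, h2⟩

theorem not_polyBound (deg : ℕ → ℕ)
    (hdeg : ∀ K R : ℕ, ∃ r ≥ R, K * (deg r + 1) ^ 2 * Nat.log 2 r ≤ r)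
    (A : ∀ n : ℕ, ℕ → Learner n) (hA : ∀ n r h, IsPTF (deg r) (A n r h)) :
    ¬ ∃ C : ℕ, ∀ (n r : ℕ) (c : Cube n → Bool), IsDecisionList c → (relevant c).ncard ≤ r →
      ∀ xs : List (Cube n), mistakes (A n r) c [] xs
        ≤ C * (r + 1) ^ C * (Nat.log 2 n + 1) ^ C := by
  rintro ⟨C, hC⟩
  set K' : ℕ := 7 * C + 3 with hK'
  obtain ⟨r, hr, hrdeg⟩ := hdeg (8 * K') 8
  set d : ℕ := deg r + 1 with hd
  have hd1 : 1 ≤ d := by omega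
  have hd2 : 1 ≤ d ^ 2 := Nat.one_le_pow _ _ hd1
  set L : ℕ := Nat.log 2 r with hL
  have hL3 : 3 ≤ L := by
    rw [hL]
    exact (Nat.le_log_iff_pow_le (by norm_num) (by omega)).2 (by norm_num; omega)
  have hrL : r < 2 ^ (L + 1) := Nat.lt_pow_succ_log_self (by norm_num) r
  have hLr : L ≤ r := (Nat.log_le_self 2 r)
  have hm : K' * L ≤ r / (8 * d ^ 2) := by
    rw [Nat.le_div_iff_mul_le (by omega)]
    calc K' * L * (8 * d ^ 2) = 8 * K' * d ^ 2 * L := by ring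
      _ ≤ r := hrdeg
  set m := r / (8 * d ^ 2) with hmdef
  have hm1 : 1 ≤ m := by nlinarith
  have hmr : 8 * d ^ 2 * m ≤ r := Nat.mul_div_le r (8 * d ^ 2)
  have hmr' : m ≤ r := Nat.div_le_self _ _
  have hdr : d ≤ r := by nlinarith
  have hn0 : 8 * d ^ 2 * m * 2 ^ (m + 0) ≠ 0 := by positivity
  obtain ⟨c, hc, hrel, xs, hxs⟩ := ptf_learner d m 0 (8 * d ^ 2 * m * 2 ^ (m + 0)) hd1 hm1 le_rfl
    (A _ r) (fun h => IsPTF.mono (by omega) (hA _ r h))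
  have hup := hC _ r c hc (hrel.trans hmr) xs
  have hlog1 : Nat.log 2 (8 * d ^ 2 * m * 2 ^ (m + 0)) + 1 ≤ (r + 1) ^ 2 := by
    have h1 : 8 * d ^ 2 * m * 2 ^ (m + 0) < 2 ^ (L + 1 + m) := by
      calc 8 * d ^ 2 * m * 2 ^ (m + 0) ≤ r * 2 ^ m := Nat.mul_le_mul_right _ hmr
        _ < 2 ^ (L + 1) * 2 ^ m := Nat.mul_lt_mul_of_pos_right hrL (by positivity)
        _ = 2 ^ (L + 1 + m) := (pow_add _ _ _).symm
    have h2 := Nat.log_lt_of_lt_pow hn0 h1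
    nlinarith
  have h1 : (2 ^ m - 1) / d ≤ C * (r + 1) ^ (3 * C) := by
    calc (2 ^ m - 1) / d ≤ (2 ^ m - 1) / d + 0 * (2 ^ m / (2 * d)) := Nat.le_add_right _ _
      _ ≤ _ := hxs
      _ ≤ _ := hup
      _ ≤ C * (r + 1) ^ C * ((r + 1) ^ 2) ^ C :=
        Nat.mul_le_mul_left _ (Nat.pow_le_pow_left hlog1 _)
      _ = C * (r + 1) ^ (3 * C) := by rw [← pow_mul, mul_assoc, ← pow_add]; congr 2; ring
  have h2 : 2 ^ m - 1 < (C * (r + 1) ^ (3 * C) + 1) * d :=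
    (Nat.div_lt_iff_lt_mul hd1).1 (Nat.lt_succ_of_le h1)
  have h3 : 2 ^ m ≤ (C * (r + 1) ^ (3 * C) + 1) * d := by
    have : 1 ≤ 2 ^ m := Nat.one_le_two_pow
    omega
  have hr1 : r + 1 ≤ 2 ^ (L + 1) := hrL
  have h4 : (C * (r + 1) ^ (3 * C) + 1) * d ≤ (C + 1) * (2 ^ (L + 1)) ^ (3 * C + 1) := by
    have h5 : 1 ≤ (2 ^ (L + 1)) ^ (3 * C) := Nat.one_le_pow _ _ (by positivity)
    calc (C * (r + 1) ^ (3 * C) + 1) * d
        ≤ (C * (2 ^ (L + 1)) ^ (3 * C) + (2 ^ (L + 1)) ^ (3 * C)) * 2 ^ (L + 1) :=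
          Nat.mul_le_mul (Nat.add_le_add (Nat.mul_le_mul_left _ (Nat.pow_le_pow_left hr1 _)) h5)
            (hdr.trans hrL.le)
      _ = (C + 1) * (2 ^ (L + 1)) ^ (3 * C + 1) := by rw [pow_succ]; ring
  have h5 : C + 1 ≤ 2 ^ C := Nat.lt_two_pow_self
  have h6 : (C + 1) * (2 ^ (L + 1)) ^ (3 * C + 1) ≤ 2 ^ (C + (L + 1) * (3 * C + 1)) := by
    rw [pow_add 2 C, pow_mul 2 (L + 1)]
    exact Nat.mul_le_mul_right _ h5
  have h7 : 2 ^ (C + (L + 1) * (3 * C + 1)) < 2 ^ m := by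
    refine Nat.pow_lt_pow_right (by norm_num) (lt_of_lt_of_le ?_ hm)
    rw [hK']
    nlinarith
  omega

end Pool.Agent.helper36.DL3
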