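import Mathlib

/-!
# A measure on the sets with at most `d` elements which looks independent up to degree `d`
-/

namespace Pool.Agent.helper36.DL3

open Finset

/-- alternating sums of antitone sequences -/
theorem alt_sum (J : ℕ) : ∀ u : ℕ → ℝ, (∀ j, 0 ≤ u j) → (∀ j, u (j + 1) ≤ u j) →
    0 ≤ ∑ j ∈ range (J + 1), (-1) ^ j * u j ∧ ∑ j ∈ range (J + 1), (-1) ^ j * u j ≤ u 0 := by
  induction J with
  | zero => intro u h0 _; simp [h0 0]
  | succ J ih =>
    intro u h0 h1
    obtain ⟨h2, h3⟩ := ih (fun j => u (j + 1)) (fun j => h0 _) (fun j => h1 _)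
    have h4 : ∑ j ∈ range (J + 1 + 1), (-1 : ℝ) ^ j * u j
        = u 0 - ∑ j ∈ range (J + 1), (-1) ^ j * u (j + 1) := by
      rw [Finset.sum_range_succ']
      have : ∀ j ∈ range (J + 1), (-1 : ℝ) ^ (j + 1) * u (j + 1) = -((-1) ^ j * u (j + 1)) := by
        intro j _; ring
      rw [Finset.sum_congr rfl this, Finset.sum_neg_distrib]
      ring
    rw [h4]
    have h5 := h1 0
    simp only [zero_add] at h3 h5
    constructor <;> linarith

variable {I : Type*} [Fintype I] [DecidableEq I]

/-- the weight of `B` -/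
noncomputable def W (d : ℕ) (ε : ℝ) (B : Finset I) : ℝ :=
  ∑ T ∈ univ.filter (fun T : Finset I => B ⊆ T ∧ T.card ≤ d),
    (-1) ^ (T.card - B.card) * ε ^ T.card

/-- the number of the supersets of `B` with `B.card + j` elements -/
theorem card_supersets (B : Finset I) (j : ℕ) :
    (univ.filter (fun T : Finset I => B ⊆ T ∧ T.card = B.card + j)).card
      = (Fintype.card I - B.card).choose j := by
  have h1 : (univ.filter (fun T : Finset I => B ⊆ T ∧ T.card = B.card + j)).card
      = (powersetCard j Bᶜ).card := by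
    refine Finset.card_nbij' (fun T => T \ B) (fun U => U ∪ B) ?_ ?_ ?_ ?_
    · intro T hT
      rw [Finset.mem_coe, Finset.mem_filter] at hT
      rw [Finset.mem_coe, Finset.mem_powersetCard]
      refine ⟨fun x hx => ?_, ?_⟩
      · rw [Finset.mem_compl]; exact (Finset.mem_sdiff.1 hx).2
      · rw [Finset.card_sdiff_of_subset hT.2.1]; omega
    · intro U hU
      rw [Finset.mem_coe, Finset.mem_powersetCard] at hU
      rw [Finset.mem_coe, Finset.mem_filter]
      refine ⟨Finset.mem_univ _, Finset.subset_union_right, ?_⟩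
      rw [Finset.card_union_of_disjoint, hU.2]
      · omega
      · rw [Finset.disjoint_left]
        intro x hx
        exact Finset.mem_compl.1 (hU.1 hx)
    · intro T hT
      rw [Finset.mem_coe, Finset.mem_filter] at hT
      exact Finset.sdiff_union_of_subset hT.2.1
    · intro U hU
      rw [Finset.mem_coe, Finset.mem_powersetCard] at hU
      refine Finset.union_sdiff_cancel_right ?_
      rw [Finset.disjoint_left]
      intro x hx
      exact Finset.mem_compl.1 (hU.1 hx)
  rw [h1, Finset.card_powersetCard, Finset.card_compl]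

theorem W_eq {d : ℕ} (ε : ℝ) (B : Finset I) (hB : B.card ≤ d) :
    W d ε B = ε ^ B.card * ∑ j ∈ range (d - B.card + 1),
      (-1) ^ j * (((Fintype.card I - B.card).choose j : ℝ) * ε ^ j) := by
  have h1 : W d ε B = ∑ j ∈ range (d - B.card + 1),
      ∑ T ∈ univ.filter (fun T : Finset I => B ⊆ T ∧ T.card ≤ d) with T.card - B.card = j,
        (-1) ^ (T.card - B.card) * ε ^ T.card := by
    rw [W]
    refine (Finset.sum_fiberwise_of_maps_to (g := fun T : Finset I => T.card - B.card) ?_ _).symm
    intro T hT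
    rw [Finset.mem_filter] at hT
    rw [Finset.mem_range]
    omega
  rw [h1, Finset.mul_sum]
  refine Finset.sum_congr rfl fun j hj => ?_
  have hj' := Finset.mem_range.1 hj
  have h2 : (univ.filter (fun T : Finset I => B ⊆ T ∧ T.card ≤ d)).filter
      (fun T => T.card - B.card = j)
      = univ.filter (fun T : Finset I => B ⊆ T ∧ T.card = B.card + j) := by
    ext T
    rw [Finset.mem_filter, Finset.mem_filter, Finset.mem_filter]
    constructor
    · rintro ⟨⟨_, h3, h4⟩, h5⟩
      have := Finset.card_le_card h3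
      exact ⟨Finset.mem_univ _, h3, by omega⟩
    · rintro ⟨_, h3, h4⟩
      exact ⟨⟨Finset.mem_univ _, h3, by omega⟩, by omega⟩
  rw [h2]
  have h3 : ∀ T ∈ univ.filter (fun T : Finset I => B ⊆ T ∧ T.card = B.card + j),
      (-1 : ℝ) ^ (T.card - B.card) * ε ^ T.card = (-1) ^ j * ε ^ (B.card + j) := by
    intro T hT
    rw [(Finset.mem_filter.1 hT).2.2]
    congr 2
    omega
  rw [Finset.sum_congr rfl h3, Finset.sum_const, card_supersets, nsmul_eq_mul]
  ring

theorem W_nonneg {d : ℕ} {ε : ℝ} (hε : 0 ≤ ε) (hv : ε * Fintype.card I ≤ 1) (B : Finset I)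
    (hB : B.card ≤ d) : 0 ≤ W d ε B := by
  rw [W_eq ε B hB]
  refine mul_nonneg (by positivity) ?_
  refine (alt_sum _ (fun j => ((Fintype.card I - B.card).choose j : ℝ) * ε ^ j)
    (fun j => by positivity) (fun j => ?_)).1
  have h1 := Nat.choose_succ_right_eq (Fintype.card I - B.card) j
  have h2 : ((Fintype.card I - B.card).choose (j + 1) : ℝ) * (j + 1)
      = ((Fintype.card I - B.card).choose j : ℝ) * ((Fintype.card I - B.card - j : ℕ) : ℝ) := by
    exact_mod_cast h1
  have h3 : ((Fintype.card I - B.card - j : ℕ) : ℝ) ≤ (Fintype.card I : ℝ) := by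
    exact_mod_cast (by omega : Fintype.card I - B.card - j ≤ Fintype.card I)
  have h4 : ε * ((Fintype.card I - B.card - j : ℕ) : ℝ) ≤ 1 :=
    (mul_le_mul_of_nonneg_left h3 hε).trans hv
  have hc : (0 : ℝ) ≤ ((Fintype.card I - B.card).choose j : ℝ) := by positivity
  have hc' : (0 : ℝ) ≤ ((Fintype.card I - B.card).choose (j + 1) : ℝ) := by positivity
  have h5 : ((Fintype.card I - B.card).choose (j + 1) : ℝ) * ε
      ≤ ((Fintype.card I - B.card).choose j : ℝ) := by
    have h6 : ((Fintype.card I - B.card).choose (j + 1) : ℝ) * ε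
        ≤ (((Fintype.card I - B.card).choose (j + 1) : ℝ) * (j + 1)) * ε := by
      have : (1 : ℝ) ≤ (j : ℝ) + 1 := by
        have : (0 : ℝ) ≤ j := by positivity
        linarith
      gcongr
      exact le_mul_of_one_le_right hc' this
    calc _ ≤ (((Fintype.card I - B.card).choose (j + 1) : ℝ) * (j + 1)) * ε := h6
      _ = ((Fintype.card I - B.card).choose j : ℝ)
          * (ε * ((Fintype.card I - B.card - j : ℕ) : ℝ)) := by rw [h2]; ring
      _ ≤ ((Fintype.card I - B.card).choose j : ℝ) * 1 := mul_le_mul_of_nonneg_left h4 hc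
      _ = _ := mul_one _
  calc ((Fintype.card I - B.card).choose (j + 1) : ℝ) * ε ^ (j + 1)
      = (((Fintype.card I - B.card).choose (j + 1) : ℝ) * ε) * ε ^ j := by ring
    _ ≤ _ := mul_le_mul_of_nonneg_right h5 (by positivity)

/-- the moments -/
theorem sum_W {d : ℕ} (ε : ℝ) (T : Finset I) (hT : T.card ≤ d) :
    ∑ B ∈ univ.filter (fun B : Finset I => T ⊆ B ∧ B.card ≤ d), W d ε B = ε ^ T.card := by
  unfold W
  have h1 : ∑ B ∈ univ.filter (fun B : Finset I => T ⊆ B ∧ B.card ≤ d),
      ∑ U ∈ univ.filter (fun U : Finset I => B ⊆ U ∧ U.card ≤ d),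
        (-1 : ℝ) ^ (U.card - B.card) * ε ^ U.card
      = ∑ U ∈ univ.filter (fun U : Finset I => T ⊆ U ∧ U.card ≤ d),
        ∑ B ∈ univ.filter (fun B : Finset I => T ⊆ B ∧ B ⊆ U),
          (-1 : ℝ) ^ (U.card - B.card) * ε ^ U.card := by
    refine Finset.sum_comm' ?_
    intro B U
    simp only [Finset.mem_filter, Finset.mem_univ, true_and]
    constructor
    · rintro ⟨⟨h2, _⟩, h3, h4⟩
      exact ⟨⟨h2, h3⟩, h2.trans h3, h4⟩
    · rintro ⟨⟨h2, h3⟩, h4, h5⟩
      exact ⟨⟨h2, (Finset.card_le_card h3).trans h5⟩, h3, h5⟩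
  rw [h1, Finset.sum_eq_single T]
  · have h2 : univ.filter (fun B : Finset I => T ⊆ B ∧ B ⊆ T) = {T} := by
      ext B
      simp only [Finset.mem_filter, Finset.mem_univ, true_and, Finset.mem_singleton]
      constructor
      · rintro ⟨h3, h4⟩; exact Finset.Subset.antisymm h4 h3
      · rintro rfl; exact ⟨subset_rfl, subset_rfl⟩
    rw [h2, Finset.sum_singleton, Nat.sub_self, pow_zero, one_mul]
  · intro U hU hne
    rw [Finset.mem_filter] at hU
    have h2 : ∑ B ∈ univ.filter (fun B : Finset I => T ⊆ B ∧ B ⊆ U),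
        (-1 : ℝ) ^ (U.card - B.card) * ε ^ U.card
        = (∑ D ∈ (U \ T).powerset, (1 : ℝ) ^ D.card * (-1) ^ ((U \ T).card - D.card))
          * ε ^ U.card := by
      rw [Finset.sum_mul]
      refine Finset.sum_nbij' (fun B => B \ T) (fun D => D ∪ T) ?_ ?_ ?_ ?_ ?_
      · intro B hB
        rw [Finset.mem_filter] at hB
        rw [Finset.mem_powerset]
        exact Finset.sdiff_subset_sdiff hB.2.2 subset_rfl
      · intro D hD
        rw [Finset.mem_powerset] at hD
        rw [Finset.mem_filter]
        exact ⟨Finset.mem_univ _, Finset.subset_union_right,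
          Finset.union_subset (hD.trans Finset.sdiff_subset) hU.2.1⟩
      · intro B hB
        rw [Finset.mem_filter] at hB
        exact Finset.sdiff_union_of_subset hB.2.1
      · intro D hD
        rw [Finset.mem_powerset] at hD
        exact Finset.union_sdiff_cancel_right (Finset.disjoint_of_subset_left hD
          Finset.sdiff_disjoint)
      · intro B hB
        rw [Finset.mem_filter] at hB
        have h3 := Finset.card_le_card hB.2.1
        have h4 := Finset.card_le_card hB.2.2
        rw [one_pow, one_mul, Finset.card_sdiff_of_subset hB.2.1,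
          Finset.card_sdiff_of_subset hU.2.1]
        congr 2
        omega
    rw [h2, Finset.sum_pow_mul_eq_add_pow]
    have h3 : (U \ T).card ≠ 0 := by
      intro h4
      rw [Finset.card_eq_zero, Finset.sdiff_eq_empty_iff_subset] at h4
      exact hne (Finset.Subset.antisymm h4 hU.2.1)
    rw [show (1 : ℝ) + -1 = 0 by norm_num, zero_pow h3, zero_mul]
  · intro h
    exact absurd (Finset.mem_filter.2 ⟨Finset.mem_univ _, subset_rfl, hT⟩) h

/-- the mixture looks like a product up to degree `d` -/
theorem sum_W_prod {d : ℕ} (ε : ℝ) (α β : I → ℝ) (Q : Finset I) (hQ : Q.card ≤ d)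
    (hα : ∀ i, i ∉ Q → α i = 1) (hβ : ∀ i, i ∉ Q → β i = 1) :
    ∑ B ∈ univ.filter (fun B : Finset I => B.card ≤ d), W d ε B * ∏ i, (if i ∈ B then β i else α i)
      = ∏ i, ((1 - ε) * α i + ε * β i) := by
  have h1 : ∀ B : Finset I, ∏ i, (if i ∈ B then β i else α i)
      = ∑ T ∈ Q.powerset, (if T ⊆ B then 1 else 0)
        * ((∏ i ∈ T, (β i - α i)) * ∏ i ∈ Q \ T, α i) := by
    intro B
    have h2 : ∏ i, (if i ∈ B then β i else α i) = ∏ i ∈ Q, ((if i ∈ B then β i - α i else 0) + α i) := by
      rw [← Finset.prod_subset (Finset.subset_univ Q)]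
      · refine Finset.prod_congr rfl fun i _ => ?_
        split_ifs <;> ring
      · intro i _ hi
        rw [hα i hi, hβ i hi, ite_self]
    rw [h2, Finset.prod_add]
    refine Finset.sum_congr rfl fun T _ => ?_
    by_cases hT : T ⊆ B
    · rw [if_pos hT, one_mul]
      congr 1
      exact Finset.prod_congr rfl fun i hi => if_pos (hT hi)
    · rw [if_neg hT, zero_mul]
      obtain ⟨i, hi, hiB⟩ := Finset.not_subset.1 hT
      rw [Finset.prod_eq_zero hi (if_neg hiB), zero_mul]
  have h3 : ∑ B ∈ univ.filter (fun B : Finset I => B.card ≤ d),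
      W d ε B * ∏ i, (if i ∈ B then β i else α i)
      = ∑ T ∈ Q.powerset, ε ^ T.card * ((∏ i ∈ T, (β i - α i)) * ∏ i ∈ Q \ T, α i) := by
    simp only [h1, Finset.mul_sum]
    rw [Finset.sum_comm]
    refine Finset.sum_congr rfl fun T hT => ?_
    have h5 : univ.filter (fun B : Finset I => T ⊆ B ∧ B.card ≤ d)
        = (univ.filter (fun B : Finset I => B.card ≤ d)).filter (fun B => T ⊆ B) := by
      ext B
      simp only [Finset.mem_filter, Finset.mem_univ, true_and]
      exact and_comm
    rw [← sum_W ε T ((Finset.card_le_card (Finset.mem_powerset.1 hT)).trans hQ), Finset.sum_mul,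
      h5, Finset.sum_filter (fun B : Finset I => T ⊆ B)]
    refine Finset.sum_congr rfl fun B _ => ?_
    split_ifs <;> ring
  rw [h3]
  have h4 : ∏ i, ((1 - ε) * α i + ε * β i) = ∏ i ∈ Q, (ε * (β i - α i) + α i) := by
    rw [← Finset.prod_subset (Finset.subset_univ Q)]
    · exact Finset.prod_congr rfl fun i _ => by ring
    · intro i _ hi
      rw [hα i hi, hβ i hi]; ring
  rw [h4, Finset.prod_add]
  refine Finset.sum_congr rfl fun T _ => ?_
  rw [Finset.prod_mul_distrib, Finset.prod_const]
  ring

end Pool.Agent.helper36.DL3
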