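import Pool.Agent.helper36.DL2.Target
import Pool.Agent.helper36.DL3.Weights
import Pool.Agent.helper36.DL3.Measure

/-!
# Forcing a mistake
-/

namespace Pool.Agent.helper36.DL3

open Finset Pool.Agent.helper36.DL Pool.Agent.helper36.DL2

variable {n v : ℕ}

/-- the true variables of the instance: the candidates `c ∈ C` of the group `i` get the
pattern `y i` -/
def inst (vr : (ℕ × ℕ) × ℕ → Fin n) (grp : ℕ → Fin v) (C : Finset ℕ)
    (y : Fin v → Finset (ℕ × ℕ)) : Finset (Fin n) :=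
  C.biUnion fun c => (y (grp c)).image fun k => vr (k, c)

theorem mem_inst {vr : (ℕ × ℕ) × ℕ → Fin n} {grp : ℕ → Fin v} {C : Finset ℕ}
    {y : Fin v → Finset (ℕ × ℕ)} {s : Fin n} :
    s ∈ inst vr grp C y ↔ ∃ c ∈ C, ∃ k ∈ y (grp c), vr (k, c) = s := by
  rw [inst, Finset.mem_biUnion]
  simp only [Finset.mem_image]

/-- the part of `S` belonging to the group `i` -/
def prt (vr : (ℕ × ℕ) × ℕ → Fin n) (grp : ℕ → Fin v) (C : Finset ℕ) (m L : ℕ)
    (S : Finset (Fin n)) (i : Fin v) : Finset (ℕ × ℕ) :=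
  (levels m L).filter fun k => ∃ c ∈ C, grp c = i ∧ vr (k, c) ∈ S

/-- all variables used -/
def allv (vr : (ℕ × ℕ) × ℕ → Fin n) (C : Finset ℕ) (m L : ℕ) : Finset (Fin n) :=
  C.biUnion fun c => (levels m L).image fun k => vr (k, c)

section

variable {m L N : ℕ} {vr : (ℕ × ℕ) × ℕ → Fin n}
  (hvr : Set.InjOn vr (levels m L ×ˢ range N : Finset ((ℕ × ℕ) × ℕ)))
  {C : Finset ℕ} (hC : C ⊆ range N)

include hvr hC

theorem vr_inj {c c' : ℕ} {k k' : ℕ × ℕ} (hc : c ∈ C) (hc' : c' ∈ C) (hk : k ∈ levels m L)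
    (hk' : k' ∈ levels m L) (h : vr (k, c) = vr (k', c')) : k = k' ∧ c = c' := by
  have h1 := hvr (Finset.mem_coe.2 (Finset.mem_product.2 ⟨hk, hC hc⟩))
    (Finset.mem_coe.2 (Finset.mem_product.2 ⟨hk', hC hc'⟩)) h
  exact ⟨(Prod.ext_iff.1 h1).1, (Prod.ext_iff.1 h1).2⟩

theorem subset_inst_iff (grp : ℕ → Fin v) {y : Fin v → Finset (ℕ × ℕ)}
    (hy : ∀ i, y i ⊆ levels m L) (S : Finset (Fin n)) :
    S ⊆ inst vr grp C y ↔ S ⊆ allv vr C m L ∧ ∀ i, prt vr grp C m L S i ⊆ y i := by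
  constructor
  · intro h
    refine ⟨fun s hs => ?_, fun i k hk => ?_⟩
    · obtain ⟨c, hc, k, hk, rfl⟩ := mem_inst.1 (h hs)
      exact Finset.mem_biUnion.2 ⟨c, hc, Finset.mem_image.2 ⟨k, hy _ hk, rfl⟩⟩
    · rw [prt, Finset.mem_filter] at hk
      obtain ⟨hk1, c, hc, rfl, hs⟩ := hk
      obtain ⟨c', hc', k', hk', he⟩ := mem_inst.1 (h hs)
      obtain ⟨rfl, rfl⟩ := vr_inj hvr hC hc' hc (hy _ hk') hk1 he
      exact hk'
  · rintro ⟨h1, h2⟩ s hs
    obtain ⟨c, hc, h3⟩ := Finset.mem_biUnion.1 (h1 hs)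
    obtain ⟨k, hk, rfl⟩ := Finset.mem_image.1 h3
    exact mem_inst.2 ⟨c, hc, k, h2 (grp c) (Finset.mem_filter.2 ⟨hk, c, hc, rfl, hs⟩), rfl⟩

theorem sum_card_prt (grp : ℕ → Fin v) (S : Finset (Fin n)) :
    ∑ i, (prt vr grp C m L S i).card ≤ S.card := by
  classical
  have h : ∀ p : (_ : Fin v) × (ℕ × ℕ), ∃ c, p.2 ∈ prt vr grp C m L S p.1 →
      c ∈ C ∧ grp c = p.1 ∧ vr (p.2, c) ∈ S := by
    intro p
    by_cases hp : p.2 ∈ prt vr grp C m L S p.1
    · obtain ⟨_, c, hc⟩ := Finset.mem_filter.1 hp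
      exact ⟨c, fun _ => hc⟩
    · exact ⟨0, fun h => absurd h hp⟩
  choose cf hcf using h
  rw [← Finset.card_sigma]
  refine Finset.card_le_card_of_injOn (fun p => vr (p.2, cf p)) (fun p hp => ?_) ?_
  · rw [Finset.mem_coe, Finset.mem_sigma] at hp
    exact (hcf p hp.2).2.2
  · intro p hp q hq hpq
    rw [Finset.mem_coe, Finset.mem_sigma] at hp hq
    have h1 := hcf p hp.2
    have h2 := hcf q hq.2
    obtain ⟨h3, h4⟩ := vr_inj hvr hC h1.1 h2.1 (Finset.mem_filter.1 hp.2).1
      (Finset.mem_filter.1 hq.2).1 hpq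
    have h5 : p.1 = q.1 := by rw [← h1.2.1, ← h2.2.1, h4]
    obtain ⟨i, k⟩ := p
    obtain ⟨j, l⟩ := q
    simp only at h3 h5
    subst h3 h5
    rfl

theorem tgt_inst (grp : ℕ → Fin v) {y : Fin v → Finset (ℕ × ℕ)} (hy : ∀ i, y i ⊆ levels m L)
    {c : ℕ} (hc : c ∈ C) :
    tgt (fun k => vr (k, c)) L m (ind (inst vr grp C y)) = lab (y (grp c)) L m := by
  refine tgt_lab _ _ _ _ _ fun k hk => ?_
  rw [ind, decide_eq_true_eq, mem_inst]
  constructor
  · rintro ⟨c', hc', k', hk', he⟩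
    obtain ⟨rfl, rfl⟩ := vr_inj hvr hC hc' hc (hy _ hk') hk he
    exact hk'
  · intro h
    exact ⟨c, hc, k, h, rfl⟩

/-- the expectation for a product measure -/
theorem sum_pi (grp : ℕ → Fin v) {F cf : Finset (Fin n) → ℝ}
    (hF : ∀ A, F A = ∑ S ∈ A.powerset, cf S) (g : Fin v → Finset (ℕ × ℕ) → ℝ) :
    ∑ y ∈ Fintype.piFinset (fun _ : Fin v => (levels m L).powerset),
      (∏ i, g i (y i)) * F (inst vr grp C y)
      = ∑ S : Finset (Fin n), cf S * (if S ⊆ allv vr C m L then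
          ∏ i, mass m L (g i) (prt vr grp C m L S i) else 0) := by
  have h1 : ∀ y ∈ Fintype.piFinset (fun _ : Fin v => (levels m L).powerset),
      (∏ i, g i (y i)) * F (inst vr grp C y) = ∑ S : Finset (Fin n), cf S *
        (if S ⊆ allv vr C m L then
          ∏ i, (g i (y i) * if prt vr grp C m L S i ⊆ y i then 1 else 0) else 0) := by
    intro y hy
    have hy' : ∀ i, y i ⊆ levels m L := fun i =>
      Finset.mem_powerset.1 (Fintype.mem_piFinset.1 hy i)
    have h2 : F (inst vr grp C y) = ∑ S : Finset (Fin n),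
        cf S * (if S ⊆ inst vr grp C y then 1 else 0) := by
      rw [hF]
      simp only [mul_ite, mul_one, mul_zero]
      rw [← Finset.sum_filter]
      refine Finset.sum_congr ?_ fun _ _ => rfl
      ext S
      simp
    rw [h2, Finset.mul_sum]
    refine Finset.sum_congr rfl fun S _ => ?_
    have h3 := subset_inst_iff hvr hC grp hy' S
    by_cases h4 : S ⊆ allv vr C m L
    · rw [if_pos h4, Finset.prod_mul_distrib]
      by_cases h5 : ∀ i, prt vr grp C m L S i ⊆ y i
      · rw [if_pos (h3.2 ⟨h4, h5⟩), Finset.prod_eq_one (fun i _ => if_pos (h5 i))]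
        ring
      · rw [if_neg (fun h => h5 (h3.1 h).2)]
        push Not at h5
        obtain ⟨i, hi⟩ := h5
        rw [Finset.prod_eq_zero (f := fun i => if prt vr grp C m L S i ⊆ y i then (1 : ℝ) else 0)
          (Finset.mem_univ i) (if_neg hi)]
        ring
    · rw [if_neg (fun h => h4 (h3.1 h).1), if_neg h4]
      ring
  rw [Finset.sum_congr rfl h1, Finset.sum_comm]
  refine Finset.sum_congr rfl fun S _ => ?_
  rw [← Finset.mul_sum]
  congr 1
  by_cases h4 : S ⊆ allv vr C m L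
  · simp only [if_pos h4]
    exact (Finset.prod_univ_sum (fun _ : Fin v => (levels m L).powerset)
      (fun i Y => g i Y * if prt vr grp C m L S i ⊆ Y then 1 else 0)).symm
  · simp only [if_neg h4]
    exact Finset.sum_const_zero

end

theorem sum_pos_of {ι : Type*} (s : Finset ι) (w F : ι → ℝ) (hw : ∀ i ∈ s, 0 ≤ w i)
    (h1 : ∑ i ∈ s, w i = 1) (hF : ∀ i ∈ s, w i ≠ 0 → 0 < F i) : 0 < ∑ i ∈ s, w i * F i := by
  have h2 : ∃ i ∈ s, w i ≠ 0 := by
    by_contra h
    push Not at h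
    rw [Finset.sum_eq_zero h] at h1
    exact zero_ne_one h1
  obtain ⟨i, hi, hwi⟩ := h2
  refine Finset.sum_pos' (fun j hj => ?_) ⟨i, hi, mul_pos (lt_of_le_of_ne (hw i hi) hwi.symm)
    (hF i hi hwi)⟩
  by_cases hj0 : w j = 0
  · rw [hj0, zero_mul]
  · exact mul_nonneg (hw j hj) (hF j hj hj0).le

theorem sum_nonpos_of {ι : Type*} (s : Finset ι) (w F : ι → ℝ) (hw : ∀ i ∈ s, 0 ≤ w i)
    (hF : ∀ i ∈ s, w i ≠ 0 → F i ≤ 0) : ∑ i ∈ s, w i * F i ≤ 0 := by
  refine Finset.sum_nonpos fun j hj => ?_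
  by_cases hj0 : w j = 0
  · rw [hj0, zero_mul]
  · exact mul_nonpos_of_nonneg_of_nonpos (hw j hj) (hF j hj hj0)

/-- **forcing a mistake** -/
theorem step {d m L N : ℕ} {vr : (ℕ × ℕ) × ℕ → Fin n}
    (hvr : Set.InjOn vr (levels m L ×ˢ range N : Finset ((ℕ × ℕ) × ℕ)))
    {a b μ : Finset (ℕ × ℕ) → ℝ} {ε : ℝ} {e : Bool}
    (ha0 : ∀ Y, 0 ≤ a Y) (hb0 : ∀ Y, 0 ≤ b Y) (hμ0 : ∀ Y, 0 ≤ μ Y) (hε0 : 0 ≤ ε)
    (ha1 : mass m L a ∅ = 1) (hb1 : mass m L b ∅ = 1) (hμ1 : mass m L μ ∅ = 1)
    (hmom : ∀ S : Finset (ℕ × ℕ), S.card ≤ d →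
      (1 - ε) * mass m L a S + ε * mass m L b S = mass m L μ S)
    (haL : ∀ Y, a Y ≠ 0 → lab Y L m = e) (hμL : ∀ Y, μ Y ≠ 0 → lab Y L m = !e)
    (hεv : ε * v ≤ 1) (h : Cube n → Bool) (hh : IsPTF d h) (C : Finset ℕ) (hC : C ⊆ range N)
    (grp : ℕ → Fin v) (s : ℕ) (hs : ∀ i, (C.filter fun c => grp c = i).card ≤ s) :
    ∃ x b', h x ≠ b' ∧
      (C.filter fun c => tgt (fun k => vr (k, c)) L m x ≠ b').card ≤ d * s := by
  classical
  by_contra hcon
  push Not at hcon
  obtain ⟨p, hp, hpt⟩ := hh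
  obtain ⟨cf, hcf, hF⟩ := hasDeg_of_poly p hp
  set F : Finset (Fin n) → ℝ := fun S => MvPolynomial.eval
    (fun j => if ind S j then (1 : ℝ) else 0) p with hFdef
  set PI := Fintype.piFinset (fun _ : Fin v => (levels m L).powerset) with hPI
  have hPIm : ∀ y ∈ PI, ∀ i, y i ⊆ levels m L := fun y hy i =>
    Finset.mem_powerset.1 (Fintype.mem_piFinset.1 hy i)
  -- the correct predictions
  have hgood : ∀ y ∈ PI, ∀ (f : Bool) (B : Finset (Fin v)), B.card ≤ d →
      (∀ i, i ∉ B → lab (y i) L m = f) → h (ind (inst vr grp C y)) = f := by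
    intro y hy f B hB hlab
    by_contra hne
    refine absurd (hcon _ f hne) (not_lt.2 ?_)
    have h1 : (C.filter fun c => tgt (fun k => vr (k, c)) L m (ind (inst vr grp C y)) ≠ f)
        ⊆ B.biUnion fun i => C.filter fun c => grp c = i := by
      intro c hc
      rw [Finset.mem_filter] at hc
      rw [Finset.mem_biUnion]
      refine ⟨grp c, ?_, Finset.mem_filter.2 ⟨hc.1, rfl⟩⟩
      by_contra hB'
      apply hc.2
      rw [tgt_inst hvr hC grp (hPIm y hy) hc.1]
      exact hlab _ hB'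
    calc _ ≤ _ := Finset.card_le_card h1
      _ ≤ ∑ i ∈ B, (C.filter fun c => grp c = i).card := Finset.card_biUnion_le
      _ ≤ ∑ _i ∈ B, s := Finset.sum_le_sum fun i _ => hs i
      _ = B.card * s := by rw [Finset.sum_const, smul_eq_mul]
      _ ≤ d * s := Nat.mul_le_mul_right _ hB
  -- the two sums
  set BS := univ.filter (fun B : Finset (Fin v) => B.card ≤ d) with hBS
  set w₁ : Finset (Fin v) × (Fin v → Finset (ℕ × ℕ)) → ℝ := fun q =>
    W d ε q.1 * ∏ i, (if i ∈ q.1 then b (q.2 i) else a (q.2 i)) with hw₁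
  have hcard : Fintype.card (Fin v) = v := Fintype.card_fin v
  have hw₁0 : ∀ q ∈ BS ×ˢ PI, 0 ≤ w₁ q := by
    intro q hq
    refine mul_nonneg (W_nonneg hε0 (by rw [hcard]; exact hεv) _ ?_)
      (Finset.prod_nonneg fun i _ => ?_)
    · exact (Finset.mem_filter.1 (Finset.mem_product.1 hq).1).2
    · split_ifs
      · exact hb0 _
      · exact ha0 _
  have hmassite : ∀ (B : Finset (Fin v)) (i : Fin v) (S : Finset (ℕ × ℕ)),
      mass m L (fun Y => if i ∈ B then b Y else a Y) S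
        = if i ∈ B then mass m L b S else mass m L a S := by
    intro B i S
    split_ifs <;> rfl
  have hS1 : ∑ q ∈ BS ×ˢ PI, w₁ q * F (inst vr grp C q.2)
      = ∑ S : Finset (Fin n), cf S * (if S ⊆ allv vr C m L then
          ∏ i, mass m L μ (prt vr grp C m L S i) else 0) := by
    rw [Finset.sum_product]
    have h1 : ∀ B ∈ BS, ∑ y ∈ PI, w₁ (B, y) * F (inst vr grp C y)
        = ∑ S : Finset (Fin n), cf S * (if S ⊆ allv vr C m L then
          W d ε B * ∏ i, (if i ∈ B then mass m L b (prt vr grp C m L S i)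
            else mass m L a (prt vr grp C m L S i)) else 0) := by
      intro B _
      have h2 := sum_pi hvr hC grp hF (fun i Y => if i ∈ B then b Y else a Y)
      calc ∑ y ∈ PI, w₁ (B, y) * F (inst vr grp C y)
          = W d ε B * ∑ y ∈ PI, (∏ i, (if i ∈ B then b (y i) else a (y i)))
            * F (inst vr grp C y) := by
            rw [Finset.mul_sum]
            exact Finset.sum_congr rfl fun y _ => by rw [hw₁]; ring
        _ = _ := by
            rw [h2, Finset.mul_sum]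
            refine Finset.sum_congr rfl fun S _ => ?_
            simp only [hmassite]
            split_ifs <;> ring
    rw [Finset.sum_congr rfl h1, Finset.sum_comm]
    refine Finset.sum_congr rfl fun S _ => ?_
    rw [← Finset.mul_sum]
    by_cases hS : S ⊆ allv vr C m L
    · simp only [if_pos hS]
      rcases Nat.lt_or_ge d S.card with hSd | hSd
      · rw [hcf S hSd, zero_mul, zero_mul]
      · congr 1
        have hsum := (sum_card_prt hvr hC grp S).trans hSd
        rw [sum_W_prod ε (fun i => mass m L a (prt vr grp C m L S i))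
          (fun i => mass m L b (prt vr grp C m L S i))
          (univ.filter fun i => prt vr grp C m L S i ≠ ∅)]
        · refine Finset.prod_congr rfl fun i _ => hmom _ ?_
          exact (Finset.single_le_sum (f := fun i => (prt vr grp C m L S i).card)
            (fun _ _ => Nat.zero_le _) (Finset.mem_univ i)).trans hsum
        · refine le_trans ?_ hsum
          rw [Finset.card_eq_sum_ones, Finset.sum_filter]
          refine Finset.sum_le_sum fun i _ => ?_
          split_ifs with hi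
          · exact Finset.card_pos.2 (Finset.nonempty_iff_ne_empty.2 hi)
          · exact Nat.zero_le _
        · intro i hi
          have : prt vr grp C m L S i = ∅ := by
            by_contra h0
            exact hi (Finset.mem_filter.2 ⟨Finset.mem_univ _, h0⟩)
          simp only [this, ha1]
        · intro i hi
          have : prt vr grp C m L S i = ∅ := by
            by_contra h0
            exact hi (Finset.mem_filter.2 ⟨Finset.mem_univ _, h0⟩)
          simp only [this, hb1]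
    · simp only [if_neg hS, Finset.sum_const_zero]
  have hS2 : ∑ y ∈ PI, (∏ i, μ (y i)) * F (inst vr grp C y)
      = ∑ S : Finset (Fin n), cf S * (if S ⊆ allv vr C m L then
          ∏ i, mass m L μ (prt vr grp C m L S i) else 0) :=
    sum_pi hvr hC grp hF (fun _ => μ)
  have hpitot : ∀ g : Fin v → Finset (ℕ × ℕ) → ℝ, (∀ i, mass m L (g i) ∅ = 1) →
      ∑ y ∈ PI, ∏ i, g i (y i) = 1 := by
    intro g hg
    rw [hPI, ← Finset.prod_univ_sum]
    refine Finset.prod_eq_one fun i _ => ?_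
    have := hg i
    unfold mass at this
    simpa using this
  have hw₁1 : ∑ q ∈ BS ×ˢ PI, w₁ q = 1 := by
    rw [Finset.sum_product]
    have h1 : ∀ B ∈ BS, ∑ y ∈ PI, w₁ (B, y) = W d ε B := by
      intro B _
      rw [hw₁]
      simp only
      rw [← Finset.mul_sum, hpitot (fun i Y => if i ∈ B then b Y else a Y) (fun i => by
        rw [hmassite]; split_ifs
        · exact hb1
        · exact ha1), mul_one]
    rw [Finset.sum_congr rfl h1]
    have h2 := sum_W (I := Fin v) (d := d) ε ∅ (by simp)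
    simpa using h2
  have hw₂0 : ∀ y ∈ PI, 0 ≤ ∏ i, μ (y i) := fun y _ => Finset.prod_nonneg fun i _ => hμ0 _
  have hw₂1 : ∑ y ∈ PI, ∏ i, μ (y i) = 1 := hpitot (fun _ => μ) (fun _ => hμ1)
  -- the predictions on the two supports
  have hp1 : ∀ q ∈ BS ×ˢ PI, w₁ q ≠ 0 → h (ind (inst vr grp C q.2)) = e := by
    intro q hq hne
    obtain ⟨hq1, hq2⟩ := Finset.mem_product.1 hq
    refine hgood q.2 hq2 e q.1 (Finset.mem_filter.1 hq1).2 fun i hi => haL _ ?_
    have h1 := Finset.prod_ne_zero_iff.1 (right_ne_zero_of_mul hne) i (Finset.mem_univ i)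
    rwa [if_neg hi] at h1
  have hp2 : ∀ y ∈ PI, ∏ i, μ (y i) ≠ 0 → h (ind (inst vr grp C y)) = !e := by
    intro y hy hne
    refine hgood y hy (!e) ∅ (by simp) fun i _ => hμL _ ?_
    exact Finset.prod_ne_zero_iff.1 hne i (Finset.mem_univ i)
  have hpos : ∀ A : Finset (Fin n), h (ind A) = true → 0 < F A := fun A hA => (hpt _).1 hA
  have hneg : ∀ A : Finset (Fin n), h (ind A) = false → F A ≤ 0 := by
    intro A hA
    by_contra hc
    have := (hpt (ind A)).2 (not_le.1 hc)
    rw [hA] at this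
    exact absurd this (by simp)
  have heq := hS1.trans hS2.symm
  rcases e with _ | _
  · have h1 := sum_nonpos_of (BS ×ˢ PI) w₁ (fun q => F (inst vr grp C q.2)) hw₁0
      (fun q hq hne => hneg _ (hp1 q hq hne))
    have h2 := sum_pos_of PI (fun y => ∏ i, μ (y i)) (fun y => F (inst vr grp C y)) hw₂0 hw₂1
      (fun y hy hne => hpos _ (hp2 y hy hne))
    beta_reduce at h1 h2
    linarith
  · have h1 := sum_pos_of (BS ×ˢ PI) w₁ (fun q => F (inst vr grp C q.2)) hw₁0 hw₁1
      (fun q hq hne => hpos _ (hp1 q hq hne))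
    have h2 := sum_nonpos_of PI (fun y => ∏ i, μ (y i)) (fun y => F (inst vr grp C y)) hw₂0
      (fun y hy hne => hneg _ (hp2 y hy hne))
    beta_reduce at h1 h2
    linarith

end Pool.Agent.helper36.DL3
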