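import Pool.Agent.helper36.DL.Model

/-!
# Learners whose hypotheses are decision lists
-/

namespace Pool.Agent.helper36.DL3

open Finset Pool.Agent.helper36.DL

variable {n : ℕ}

/-- every subcube contains a subcube with at most `k` more fixed coordinates on which `h` is
constant: the subcube of the `x` equal to `z` outside `F`; the coordinates of `K ⊆ F` are fixed
as in `y` -/
def Shallow (k : ℕ) (h : Cube n → Bool) : Prop :=
  ∀ (F : Finset (Fin n)) (z : Cube n), ∃ K ⊆ F, K.card ≤ k ∧ ∃ (y : Cube n) (b : Bool),
    ∀ x : Cube n, (∀ j, j ∉ F → x j = z j) → (∀ j ∈ K, x j = y j) → h x = b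

/-- the value of the list of rules (term, output) with the default value `b`; a term is a list
of literals (variable, value), satisfied if all its literals are -/
def evalKDL : List (List (Fin n × Bool) × Bool) → Bool → Cube n → Bool
  | [], b, _ => b
  | (t, o) :: l, b, x => if ∀ p ∈ t, x p.1 = p.2 then o else evalKDL l b x

/-- `f` is computed by a `k`-decision list (of any length) -/
def IsKDecisionList (k : ℕ) (f : Cube n → Bool) : Prop :=
  ∃ l b, (∀ q ∈ l, q.1.length ≤ k) ∧ ∀ x, f x = evalKDL l b x

theorem shallow_of_kdl {k : ℕ} {f : Cube n → Bool} (h : IsKDecisionList k f) : Shallow k f := by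
  classical
  obtain ⟨l, b, hl, hf⟩ := h
  intro F z
  have key : ∀ l : List (List (Fin n × Bool) × Bool), (∀ q ∈ l, q.1.length ≤ k) →
      ∃ K ⊆ F, K.card ≤ k ∧ ∃ (y : Cube n) (b' : Bool), ∀ x : Cube n,
        (∀ j, j ∉ F → x j = z j) → (∀ j ∈ K, x j = y j) → evalKDL l b x = b' := by
    intro l
    induction l with
    | nil => intro _; exact ⟨∅, by simp, by simp, z, b, fun x _ _ => rfl⟩
    | cons q l ih =>
      intro hl
      obtain ⟨t, o⟩ := q
      by_cases hsat : ∃ y : Cube n, (∀ j, j ∉ F → y j = z j) ∧ ∀ p ∈ t, y p.1 = p.2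
      · obtain ⟨y, hy1, hy2⟩ := hsat
        refine ⟨(t.map Prod.fst).toFinset ∩ F, Finset.inter_subset_right, ?_, y, o, ?_⟩
        · refine (Finset.card_le_card Finset.inter_subset_left).trans
            ((List.toFinset_card_le _).trans ?_)
          rw [List.length_map]
          exact hl _ (List.mem_cons_self ..)
        · intro x hx1 hx2
          rw [evalKDL, if_pos]
          intro p hp
          rw [← hy2 p hp]
          by_cases hpF : p.1 ∈ F
          · refine hx2 _ (Finset.mem_inter.2 ⟨?_, hpF⟩)
            rw [List.mem_toFinset, List.mem_map]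
            exact ⟨p, hp, rfl⟩
          · rw [hx1 _ hpF, hy1 _ hpF]
      · obtain ⟨K, hK, hKk, y, b', hy⟩ := ih fun q hq => hl q (List.mem_cons_of_mem _ hq)
        refine ⟨K, hK, hKk, y, b', fun x hx1 hx2 => ?_⟩
        rw [evalKDL, if_neg (fun hp => hsat ⟨x, hx1, hp⟩)]
        exact hy x hx1 hx2
  obtain ⟨K, hK, hKk, y, b', hy⟩ := key l hl
  exact ⟨K, hK, hKk, y, b', fun x hx1 hx2 => by rw [hf]; exact hy x hx1 hx2⟩

/-- the number of errors on a labelled sequence -/
def err (A : Learner n) : List (Cube n × Bool) → List (Cube n × Bool) → ℕ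
  | _, [] => 0
  | h, e :: ls => (if A h e.1 = e.2 then 0 else 1) + err A (h ++ [e]) ls

theorem err_append (A : Learner n) (ls ls' : List (Cube n × Bool)) :
    ∀ h, err A h (ls ++ ls') = err A h ls + err A (h ++ ls) ls' := by
  induction ls with
  | nil => intro h; simp [err]
  | cons e ls ih =>
    intro h
    rw [List.cons_append, err, err, ih, List.append_assoc]
    simp only [List.cons_append, List.nil_append]
    ring

theorem mistakes_eq_err (A : Learner n) (c : Cube n → Bool) (ls : List (Cube n × Bool))
    (hc : ∀ e ∈ ls, c e.1 = e.2) : ∀ h, mistakes A c h (ls.map Prod.fst) = err A h ls := by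
  induction ls with
  | nil => intro h; rfl
  | cons e ls ih =>
    intro h
    have he := hc e (List.mem_cons_self ..)
    rw [List.map_cons, mistakes, err, he, ih (fun e' he' => hc e' (List.mem_cons_of_mem _ he'))]

/-- one phase with a mask -/
theorem phase {k : ℕ} (A : Learner n) (hA : ∀ h, Shallow k (A h)) (F : Finset (Fin n)) (J : ℕ) :
    ∀ (V U : Finset (Fin n)) (h : List (Cube n × Bool)), V ⊆ F → U ⊆ F → Disjoint V U →
      1 + k * J ≤ V.card → 1 + k * J ≤ U.card →
      ∃ i ∈ V, ∃ m ∈ U, ∃ ls, J ≤ err A h ls ∧ ∀ e ∈ ls, (∀ j, j ∉ F → e.1 j = false) ∧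
        ((e.2 = true ∧ e.1 i = true) ∨ (e.2 = false ∧ e.1 i = false ∧ e.1 m = true)) := by
  classical
  induction J with
  | zero =>
    intro V U h _ _ _ hV hU
    obtain ⟨i, hi⟩ := Finset.card_pos.1 (by omega : 0 < V.card)
    obtain ⟨m, hm⟩ := Finset.card_pos.1 (by omega : 0 < U.card)
    exact ⟨i, hi, m, hm, [], Nat.zero_le _, by simp⟩
  | succ J ih =>
    intro V U h hVF hUF hVU hV hU
    obtain ⟨K, hKF, hKk, y, b, hK⟩ := hA h F (fun _ => false)
    rw [Nat.mul_succ] at hV hU
    rcases b with _ | _
    · -- the hypothesis is false: all ones, except on the negative part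
      set N := K.filter fun j => y j = false with hN
      have hNk : N.card ≤ k := (Finset.card_le_card (Finset.filter_subset _ _)).trans hKk
      set x : Cube n := fun j => decide (j ∈ F \ N) with hx
      have hxA : A h x = false := by
        apply hK
        · intro j hj
          rw [hx]
          simp [hj]
        · intro j hj
          rw [hx]
          simp only
          rcases hyj : y j with _ | _
          · rw [decide_eq_false_iff_not, Finset.mem_sdiff]
            intro h1
            exact h1.2 (Finset.mem_filter.2 ⟨hj, hyj⟩)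
          · rw [decide_eq_true_eq, Finset.mem_sdiff]
            refine ⟨hKF hj, fun h1 => ?_⟩
            have := (Finset.mem_filter.1 h1).2
            rw [hyj] at this
            exact absurd this (by simp)
      have h1 := Finset.le_card_sdiff N V
      obtain ⟨i, hi, m, hm, ls, hls, hls2⟩ := ih (V \ N) U (h ++ [(x, true)])
        (Finset.sdiff_subset.trans hVF) hUF
        (Finset.disjoint_of_subset_left Finset.sdiff_subset hVU) (by omega) (by omega)
      rw [Finset.mem_sdiff] at hi
      refine ⟨i, hi.1, m, hm, (x, true) :: ls, ?_, ?_⟩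
      · rw [err, hxA, if_neg (by simp)]
        omega
      · intro e he
        rcases List.mem_cons.1 he with rfl | he
        · refine ⟨fun j hj => by rw [hx]; simp [hj], Or.inl ⟨rfl, ?_⟩⟩
          rw [hx]
          simp [hVF hi.1, hi.2]
        · exact hls2 e he
    · -- the hypothesis is true: ones only on the positive part and the masks
      set P := K.filter fun j => y j = true with hP
      set N := K.filter fun j => y j = false with hN
      have hPk : P.card ≤ k := (Finset.card_le_card (Finset.filter_subset _ _)).trans hKk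
      have hNk : N.card ≤ k := (Finset.card_le_card (Finset.filter_subset _ _)).trans hKk
      set x : Cube n := fun j => decide (j ∈ P ∪ (U \ N)) with hx
      have hPF : P ⊆ F := (Finset.filter_subset _ _).trans hKF
      have hxA : A h x = true := by
        apply hK
        · intro j hj
          rw [hx]
          simp only
          rw [decide_eq_false_iff_not, Finset.mem_union, Finset.mem_sdiff]
          rintro (h1 | h1)
          · exact hj (hPF h1)
          · exact hj (hUF h1.1)
        · intro j hj
          rw [hx]
          simp only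
          rcases hyj : y j with _ | _
          · rw [decide_eq_false_iff_not, Finset.mem_union, Finset.mem_sdiff]
            rintro (h1 | h1)
            · have := (Finset.mem_filter.1 h1).2
              rw [hyj] at this
              exact absurd this (by simp)
            · exact h1.2 (Finset.mem_filter.2 ⟨hj, hyj⟩)
          · rw [decide_eq_true_eq, Finset.mem_union]
            exact Or.inl (Finset.mem_filter.2 ⟨hj, hyj⟩)
      have h1 := Finset.le_card_sdiff P V
      have h2 := Finset.le_card_sdiff N U
      obtain ⟨i, hi, m, hm, ls, hls, hls2⟩ := ih (V \ P) (U \ N) (h ++ [(x, false)])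
        (Finset.sdiff_subset.trans hVF) (Finset.sdiff_subset.trans hUF)
        (Finset.disjoint_of_subset_left Finset.sdiff_subset
          (Finset.disjoint_of_subset_right Finset.sdiff_subset hVU)) (by omega) (by omega)
      rw [Finset.mem_sdiff] at hi hm
      refine ⟨i, hi.1, m, hm.1, (x, false) :: ls, ?_, ?_⟩
      · rw [err, hxA, if_neg (by simp)]
        omega
      · intro e he
        rcases List.mem_cons.1 he with rfl | he
        · refine ⟨fun j hj => ?_, Or.inr ⟨rfl, ?_, ?_⟩⟩
          · rw [hx]
            simp only
            rw [decide_eq_false_iff_not, Finset.mem_union, Finset.mem_sdiff]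
            rintro (h1 | h1)
            · exact hj (hPF h1)
            · exact hj (hUF h1.1)
          · rw [hx]
            simp only
            rw [decide_eq_false_iff_not, Finset.mem_union, Finset.mem_sdiff]
            rintro (h1 | h1)
            · exact hi.2 h1
            · exact Finset.disjoint_left.1 hVU hi.1 h1.1
          · rw [hx]
            simp only
            rw [decide_eq_true_eq, Finset.mem_union, Finset.mem_sdiff]
            exact Or.inr ⟨hm.1, hm.2⟩
        · exact hls2 e he

/-- the last phase, without a mask -/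
theorem last {k : ℕ} (A : Learner n) (hA : ∀ h, Shallow k (A h)) (F : Finset (Fin n)) (J : ℕ) :
    ∀ (V : Finset (Fin n)) (h : List (Cube n × Bool)), V ⊆ F →
      1 + k * J ≤ V.card →
      ∃ i ∈ V, ∃ ls, J ≤ err A h ls ∧ ∀ e ∈ ls, (∀ j, j ∉ F → e.1 j = false) ∧ e.2 = e.1 i := by
  classical
  induction J with
  | zero =>
    intro V h _ hV
    obtain ⟨i, hi⟩ := Finset.card_pos.1 (by omega : 0 < V.card)
    exact ⟨i, hi, [], Nat.zero_le _, by simp⟩
  | succ J ih =>
    intro V h hVF hV
    obtain ⟨K, hKF, hKk, y, b, hK⟩ := hA h F (fun _ => false)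
    rw [Nat.mul_succ] at hV
    set P := K.filter fun j => y j = (!b) with hP
    have hPk : P.card ≤ k := (Finset.card_le_card (Finset.filter_subset _ _)).trans hKk
    -- the instance equals `y` on `K`, and the complement of `b` elsewhere in `F`
    set x : Cube n := fun j => if j ∈ F then (if j ∈ K then y j else !b) else false with hx
    have hxA : A h x = b := by
      apply hK
      · intro j hj
        rw [hx]
        simp [hj]
      · intro j hj
        rw [hx]
        simp [hj, hKF hj]
    set Q := K.filter fun j => y j = b with hQ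
    have hQk : Q.card ≤ k := (Finset.card_le_card (Finset.filter_subset _ _)).trans hKk
    have h1 := Finset.le_card_sdiff Q V
    obtain ⟨i, hi, ls, hls, hls2⟩ := ih (V \ Q) (h ++ [(x, !b)])
      (Finset.sdiff_subset.trans hVF) (by omega)
    rw [Finset.mem_sdiff] at hi
    refine ⟨i, hi.1, (x, !b) :: ls, ?_, ?_⟩
    · rw [err, hxA, if_neg (by cases b <;> simp)]
      omega
    · intro e he
      rcases List.mem_cons.1 he with rfl | he
      · refine ⟨fun j hj => by rw [hx]; simp [hj], ?_⟩
        rw [hx]
        simp only
        rw [if_pos (hVF hi.1)]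
        split_ifs with h2
        · have h3 : y i ≠ b := fun h4 => hi.2 (Finset.mem_filter.2 ⟨h2, h4⟩)
          cases b <;> cases hy : y i <;> simp_all
        · rfl
      · exact hls2 e he

/-- all phases -/
theorem phases {k : ℕ} (A : Learner n) (hA : ∀ h, Shallow k (A h)) (J : ℕ) (odd : Bool)
    (p : ℕ) : ∀ (F : Finset (Fin n)) (h : List (Cube n × Bool)),
      2 * (k * J + p) + odd.toNat ≤ F.card →
      ∃ (l : List (Fin n × Bool × Bool)) (ls : List (Cube n × Bool)),
        l.length ≤ 2 * p + odd.toNat ∧ (∀ q ∈ l, q.1 ∈ F ∧ q.2.1 = true) ∧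
        (p + odd.toNat) * J ≤ err A h ls ∧
        ∀ e ∈ ls, (∀ j, j ∉ F → e.1 j = false) ∧ evalDL l false e.1 = e.2 := by
  classical
  induction p with
  | zero =>
    intro F h hF
    rcases odd with _ | _
    · exact ⟨[], [], by simp, by simp, by simp, by simp⟩
    · obtain ⟨i, hi, ls, hls, hls2⟩ := last A hA F J F h subset_rfl (by
        simp only [Bool.toNat_true] at hF
        omega)
      refine ⟨[(i, true, true)], ls, by simp, ?_, by simpa using hls, fun e he => ?_⟩
      · intro q hq
        rw [List.mem_singleton] at hq
        subst hq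
        exact ⟨hi, rfl⟩
      · refine ⟨(hls2 e he).1, ?_⟩
        rw [evalDL, evalDL, (hls2 e he).2]
        cases e.1 i <;> simp
  | succ p ih =>
    intro F h hF
    obtain ⟨V, hVF, hV⟩ := Finset.exists_subset_card_eq (s := F) (n := 1 + k * J) (by omega)
    obtain ⟨i, hi, m, hm, ls₁, hls₁, hls₁'⟩ := phase A hA F J V (F \ V) h hVF
      Finset.sdiff_subset Finset.disjoint_sdiff (by omega)
      (by have := Finset.card_sdiff_add_card_eq_card hVF; omega)
    have hmF := (Finset.mem_sdiff.1 hm).1
    set F' := (F.erase i).erase m with hF'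
    have hF'F : F' ⊆ F := (Finset.erase_subset _ _).trans (Finset.erase_subset _ _)
    have hcard : F.card ≤ F'.card + 2 := by
      have h1 := Finset.pred_card_le_card_erase (s := F) (a := i)
      have h2 := Finset.pred_card_le_card_erase (s := F.erase i) (a := m)
      rw [hF']
      omega
    obtain ⟨l, ls₂, hl, hlF, hls₂, hls₂'⟩ := ih F' (h ++ ls₁) (by omega)
    refine ⟨(i, true, true) :: (m, true, false) :: l, ls₁ ++ ls₂, ?_, ?_, ?_, ?_⟩
    · simp only [List.length_cons]
      omega
    · intro q hq
      rcases List.mem_cons.1 hq with rfl | hq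
      · exact ⟨hVF hi, rfl⟩
      · rcases List.mem_cons.1 hq with rfl | hq
        · exact ⟨hmF, rfl⟩
        · exact ⟨hF'F (hlF q hq).1, (hlF q hq).2⟩
    · rw [err_append]
      calc (p + 1 + odd.toNat) * J = J + (p + odd.toNat) * J := by ring
        _ ≤ _ := Nat.add_le_add hls₁ hls₂
    · intro e he
      rcases List.mem_append.1 he with he | he
      · obtain ⟨h1, h2⟩ := hls₁' e he
        refine ⟨h1, ?_⟩
        rcases h2 with ⟨h3, h4⟩ | ⟨h3, h4, h5⟩
        · rw [evalDL, if_pos h4, h3]
        · rw [evalDL, if_neg (by rw [h4]; simp), evalDL, if_pos h5, h3]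
      · obtain ⟨h1, h2⟩ := hls₂' e he
        refine ⟨fun j hj => h1 j fun h3 => hj (hF'F h3), ?_⟩
        have hi0 : e.1 i = false := h1 i (by rw [hF']; simp)
        have hm0 : e.1 m = false := h1 m (by rw [hF']; simp)
        rw [evalDL, if_neg (by rw [hi0]; simp), evalDL, if_neg (by rw [hm0]; simp), h2]

/-- a decision list depends only on the variables of its rules -/
theorem relevant_evalDL (l : List (Fin n × Bool × Bool)) (b : Bool) :
    (relevant (evalDL l b)).ncard ≤ l.length := by
  classical
  have h1 : relevant (evalDL l b) ⊆ (((l.map Prod.fst).toFinset : Finset (Fin n)) : Set (Fin n)) := by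
    rintro j ⟨x, hx⟩
    by_contra hj
    apply hx
    rw [Finset.mem_coe, List.mem_toFinset] at hj
    clear hx
    induction l with
    | nil => rfl
    | cons q l ih =>
      obtain ⟨i, s, o⟩ := q
      rw [List.map_cons, List.mem_cons, not_or] at hj
      rw [evalDL, evalDL, ih hj.2, Function.update_of_ne (fun h => hj.1 h.symm)]
  refine (Set.ncard_le_ncard h1 (Finset.finite_toSet _)).trans ?_
  rw [Set.ncard_coe_finset]
  refine (List.toFinset_card_le _).trans ?_
  rw [List.length_map]

/-- **learners with shallow hypotheses** -/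
theorem shallow_learner {k r : ℕ} (A : Learner n) (hA : ∀ h, Shallow k (A h)) (hr : r ≤ n) :
    ∃ c : Cube n → Bool, IsDecisionList c ∧ (relevant c).ncard ≤ r ∧
      ∃ xs, (r + 1) / 2 * ((n - r) / (2 * k)) ≤ mistakes A c [] xs := by
  have hJ : 2 * (k * ((n - r) / (2 * k))) ≤ n - r := by
    have := Nat.mul_div_le (n - r) (2 * k)
    calc 2 * (k * ((n - r) / (2 * k))) = 2 * k * ((n - r) / (2 * k)) := by ring
      _ ≤ n - r := this
  rcases Nat.even_or_odd' r with ⟨p, hp | hp⟩
  · obtain ⟨l, ls, hl, _, herr, hls⟩ := phases A hA ((n - r) / (2 * k)) false p univ [] (by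
      rw [Finset.card_univ, Fintype.card_fin, Bool.toNat_false]
      omega)
    refine ⟨evalDL l false, ⟨l, false, fun _ => rfl⟩, (relevant_evalDL l false).trans (by
      rw [Bool.toNat_false] at hl; omega), ls.map Prod.fst, ?_⟩
    rw [mistakes_eq_err A _ ls fun e he => (hls e he).2]
    have : (r + 1) / 2 = p + (false).toNat := by rw [Bool.toNat_false]; omega
    rw [this]
    exact herr
  · obtain ⟨l, ls, hl, _, herr, hls⟩ := phases A hA ((n - r) / (2 * k)) true p univ [] (by
      rw [Finset.card_univ, Fintype.card_fin, Bool.toNat_true]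
      omega)
    refine ⟨evalDL l false, ⟨l, false, fun _ => rfl⟩, (relevant_evalDL l false).trans (by
      rw [Bool.toNat_true] at hl; omega), ls.map Prod.fst, ?_⟩
    rw [mistakes_eq_err A _ ls fun e he => (hls e he).2]
    have : (r + 1) / 2 = p + (true).toNat := by rw [Bool.toNat_true]; omega
    rw [this]
    exact herr

end Pool.Agent.helper36.DL3
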